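import Pool.Agent.W2helper75.FD.Stm4

set_option autoImplicit false

/-!
Piece DSC of project FD, part 3 (helper75), MP_e2f79e_pr.
-/

namespace Pool.Agent.W2helper73.FD

open Pool.Agent.W2helper75.FD Multiplicative

noncomputable section

variable {Γ : Type} [Group Γ]

/-- the height -/
def ht (f : Γ →* Multiplicative ℤ) (g : Γ) : ℤ := (f g).toAdd

theorem ht_mul (f : Γ →* Multiplicative ℤ) (a b : Γ) : ht f (a * b) = ht f a + ht f b := by
  simp [ht]

theorem ht_zpow (f : Γ →* Multiplicative ℤ) (a : Γ) (n : ℤ) : ht f (a ^ n) = n * ht f a := by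
  simp [ht]

theorem ht_inv (f : Γ →* Multiplicative ℤ) (a : Γ) : ht f a⁻¹ = - ht f a := by
  simp [ht]

/-- the component in the kernel -/
def pr (f : Γ →* Multiplicative ℤ) (t g : Γ) : Γ := g * t ^ (-(ht f g))

theorem pr_mul (f : Γ →* Multiplicative ℤ) (t a b : Γ) :
    pr f t (a * b) = pr f t a * (t ^ (ht f a) * pr f t b * (t ^ (ht f a))⁻¹) := by
  unfold pr
  rw [ht_mul]
  group

variable (f : Γ →* Multiplicative ℤ) (t : Γ) (K₁ : Subgroup Γ)

/-- the finite index subgroups `K₁ ⋊ ⟨t^k⟩` -/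
def HH [hn : K₁.Normal] (k : ℕ) : Subgroup Γ where
  carrier := {g | (k : ℤ) ∣ ht f g ∧ pr f t g ∈ K₁}
  mul_mem' := by
    rintro a b ⟨ha, ha'⟩ ⟨hb, hb'⟩
    refine ⟨by rw [ht_mul]; exact dvd_add ha hb, ?_⟩
    rw [pr_mul]
    exact K₁.mul_mem ha' (hn.conj_mem _ hb' _)
  one_mem' := by
    refine ⟨by simp [ht], ?_⟩
    have : pr f t 1 = 1 := by simp [pr, ht]
    rw [this]
    exact K₁.one_mem
  inv_mem' := by
    rintro a ⟨ha, ha'⟩
    refine ⟨by rw [ht_inv]; exact (dvd_neg).2 ha, ?_⟩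
    have h1 : pr f t a⁻¹ = (t ^ (ht f a))⁻¹ * (pr f t a)⁻¹ * ((t ^ (ht f a))⁻¹)⁻¹ := by
      unfold pr
      rw [ht_inv]
      group
    rw [h1]
    exact hn.conj_mem _ (K₁.inv_mem ha') _

variable {f t K₁}

theorem pr_of_mem (hK : K₁ ≤ f.ker) {x : Γ} (hx : x ∈ K₁) : ht f x = 0 ∧ pr f t x = x := by
  have h1 : ht f x = 0 := by
    have := hK hx
    rw [MonoidHom.mem_ker] at this
    simp [ht, this]
  refine ⟨h1, ?_⟩
  unfold pr
  rw [h1]
  simp

/-- representatives of the kernel modulo `K₁` -/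
def Rep (f : Γ →* Multiplicative ℤ) (K₁ : Subgroup Γ) : Prop :=
  ∃ T : Finset Γ, ∀ g, f g = 1 → ∃ τ ∈ T, τ⁻¹ * g ∈ K₁

theorem rep_of (h : (K₁.subgroupOf f.ker).FiniteIndex) : Rep f K₁ := by
  classical
  have : Finite (f.ker ⧸ K₁.subgroupOf f.ker) := Subgroup.finite_quotient_of_finiteIndex
  let _ := Fintype.ofFinite (f.ker ⧸ K₁.subgroupOf f.ker)
  refine ⟨Finset.univ.image fun q : f.ker ⧸ K₁.subgroupOf f.ker => ((q.out : f.ker) : Γ), ?_⟩
  intro g hg
  refine ⟨_, Finset.mem_image.2 ⟨QuotientGroup.mk (⟨g, hg⟩ : f.ker), Finset.mem_univ _, rfl⟩, ?_⟩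
  have h1 : (QuotientGroup.mk (QuotientGroup.mk (⟨g, hg⟩ : f.ker) :
      f.ker ⧸ K₁.subgroupOf f.ker).out : f.ker ⧸ K₁.subgroupOf f.ker) =
      QuotientGroup.mk (⟨g, hg⟩ : f.ker) := QuotientGroup.out_eq' _
  rw [QuotientGroup.eq] at h1
  exact h1

theorem finiteIndex_HH [hn : K₁.Normal] (hT : Rep f K₁) (ht1 : ht f t = 1) (hK : K₁ ≤ f.ker)
    (k : ℕ) (hk : 1 ≤ k) : (HH f t K₁ k).FiniteIndex := by
  obtain ⟨T, hT⟩ := hT
  have hfin : Finite (Γ ⧸ HH f t K₁ k) := by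
    refine Finite.of_surjective (fun p : T × Fin k =>
      (QuotientGroup.mk ((p.1 : Γ) * t ^ ((p.2 : ℕ) : ℤ)) : Γ ⧸ HH f t K₁ k)) ?_
    intro q
    obtain ⟨g, rfl⟩ := QuotientGroup.mk_surjective q
    have h1 : f (pr f t g) = 1 := by
      apply Multiplicative.toAdd.injective
      show ht f (pr f t g) = 0
      unfold pr
      rw [ht_mul, ht_zpow, ht1]
      ring
    obtain ⟨τ, hτ, hx⟩ := hT _ h1
    have hk0 : (0 : ℤ) < k := by exact_mod_cast hk
    have hr0 := Int.emod_nonneg (ht f g) hk0.ne'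
    have hr1 := Int.emod_lt_of_pos (ht f g) hk0
    refine ⟨(⟨τ, hτ⟩, ⟨(ht f g % k).toNat, by omega⟩), ?_⟩
    have hr : (((ht f g % k).toNat : ℕ) : ℤ) = ht f g % k := Int.toNat_of_nonneg hr0
    simp only [hr]
    rw [QuotientGroup.eq]
    set m := ht f g with hm
    set x := τ⁻¹ * pr f t g with hxdef
    have e1 : (τ * t ^ (m % k))⁻¹ * g = (t ^ (m % k))⁻¹ * x * t ^ m := by
      rw [hxdef]
      unfold pr
      rw [← hm]
      group
    have e2 : ht f ((τ * t ^ (m % k))⁻¹ * g) = m - m % k := by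
      rw [e1, ht_mul, ht_mul, ht_inv, ht_zpow, ht_zpow, ht1, (pr_of_mem (t := t) hK hx).1]
      ring
    refine ⟨?_, ?_⟩
    · rw [e2]
      exact Int.dvd_self_sub_emod
    · unfold pr
      rw [e2, e1]
      have e3 : (t ^ (m % k))⁻¹ * x * t ^ m * t ^ (-(m - m % k)) =
          (t ^ (m % k))⁻¹ * x * ((t ^ (m % k))⁻¹)⁻¹ := by group
      rw [e3]
      exact hn.conj_mem _ hx _
  exact Subgroup.finiteIndex_of_finite_quotient

/-- The first case. -/
theorem caseA_of [hn : K₁.Normal] (hT : Rep f K₁) (ht1 : ht f t = 1) (hK : K₁ ≤ f.ker)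
    (k : ℕ) (hk : 1 ≤ k) (φ : K₁ →* Multiplicative ℤ) (hφ : Function.Surjective φ)
    (hinv : ∀ x, φ (((MulAut.conjNormal t : MulAut K₁) ^ k) x) = φ x) : CaseA Γ := by
  have hk0 : (k : ℤ) ≠ 0 := by exact_mod_cast (by omega : k ≠ 0)
  -- invariance under all powers
  have hpow : ∀ (n : ℤ) (x : K₁), φ ((((MulAut.conjNormal t : MulAut K₁) ^ k) ^ n) x) = φ x := by
    intro n
    induction n using Int.induction_on with
    | zero => intro x; simp
    | succ n ih =>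
      intro x
      rw [zpow_add_one, MulAut.mul_apply, ih, hinv]
    | pred n ih =>
      intro x
      rw [zpow_sub_one, MulAut.mul_apply, ih, ← hinv, MulAut.apply_inv_self]
  have hconj : ∀ a ∈ HH f t K₁ k, ∀ y : K₁,
      φ ⟨t ^ (ht f a) * y * (t ^ (ht f a))⁻¹, hn.conj_mem _ y.2 _⟩ = φ y := by
    rintro a ⟨⟨q, hq⟩, -⟩ y
    rw [← hpow q y]
    congr 1
    apply Subtype.ext
    rw [hq, ← zpow_natCast, ← zpow_mul, ← map_zpow, MulAut.conjNormal_apply]
  let F : HH f t K₁ k →* Multiplicative (ℤ × ℤ) :=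
    { toFun := fun g => ofAdd ((φ ⟨pr f t g, g.2.2⟩).toAdd, ht f g / k)
      map_one' := by
        have h1 : (⟨pr f t ((1 : HH f t K₁ k) : Γ), (1 : HH f t K₁ k).2.2⟩ : K₁) = 1 := by
          apply Subtype.ext
          simp [pr, ht]
        rw [h1, map_one]
        simp [ht]
      map_mul' := by
        intro a b
        have h1 : (⟨pr f t ((a * b : HH f t K₁ k) : Γ), (a * b).2.2⟩ : K₁) =
            ⟨pr f t a, a.2.2⟩ *
              ⟨t ^ (ht f a) * pr f t b * (t ^ (ht f a))⁻¹, hn.conj_mem _ b.2.2 _⟩ := by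
          apply Subtype.ext
          exact pr_mul f t a b
        have h2 : φ ⟨t ^ (ht f a) * pr f t b * (t ^ (ht f a))⁻¹, hn.conj_mem _ b.2.2 _⟩ =
            φ ⟨pr f t b, b.2.2⟩ := hconj a a.2 ⟨pr f t b, b.2.2⟩
        have h3 : ht f ((a * b : HH f t K₁ k) : Γ) / k = ht f a / k + ht f b / k := by
          rw [Subgroup.coe_mul, ht_mul]
          exact Int.add_ediv_of_dvd_left a.2.1
        rw [h1, map_mul, h2, h3, toAdd_mul, ← ofAdd_add]
        rfl }
  refine ⟨HH f t K₁ k, F, finiteIndex_HH hT ht1 hK k hk, ?_⟩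
  intro y
  obtain ⟨⟨u, v⟩, rfl⟩ : ∃ z : ℤ × ℤ, ofAdd z = y := ⟨y.toAdd, rfl⟩
  obtain ⟨x, hx⟩ := hφ (ofAdd u)
  obtain ⟨hx1, hx2⟩ := pr_of_mem (t := t) hK x.2
  have e1 : ht f ((x : Γ) * t ^ ((k : ℤ) * v)) = k * v := by
    rw [ht_mul, ht_zpow, hx1, ht1]
    ring
  have e2 : pr f t ((x : Γ) * t ^ ((k : ℤ) * v)) = x := by
    unfold pr
    rw [e1]
    group
  refine ⟨⟨(x : Γ) * t ^ ((k : ℤ) * v), ?_, ?_⟩, ?_⟩
  · rw [e1]
    exact Dvd.intro _ rfl
  · rw [e2]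
    exact x.2
  · show ofAdd ((φ ⟨pr f t ((x : Γ) * t ^ ((k : ℤ) * v)), _⟩).toAdd,
      ht f ((x : Γ) * t ^ ((k : ℤ) * v)) / k) = ofAdd (u, v)
    have h1 : ∀ h, (⟨pr f t ((x : Γ) * t ^ ((k : ℤ) * v)), h⟩ : K₁) = x := fun h =>
      Subtype.ext e2
    rw [h1, hx, e1, Int.mul_ediv_cancel_left _ hk0]
    rfl

/-- The second case. -/
theorem caseC_of [hn : K₁.Normal] (hT : Rep f K₁) (ht1 : ht f t = 1) (hK : K₁ ≤ f.ker)
    (hfg : Group.FG K₁) (ψ : K₁ → ℂ) (μ : ℂ) (hψ : ∀ x y, ψ (x * y) = ψ x + ψ y)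
    (hne : ∃ x, ψ x ≠ 0) (hμ : μ ≠ 0) (hμ1 : ‖μ‖ < 1)
    (hσ : ∀ x, ψ ((MulAut.conjNormal t : MulAut K₁) x) = μ * ψ x) : CaseC Γ := by
  classical
  have hψ1 : ψ 1 = 0 := by
    have := hψ 1 1
    rw [mul_one] at this
    linear_combination -this
  have hψi : ∀ x, ψ x⁻¹ = - ψ x := by
    intro x
    have := hψ x x⁻¹
    rw [mul_inv_cancel, hψ1] at this
    linear_combination -this
  have hpow : ∀ (n : ℤ) (x : K₁), ψ (((MulAut.conjNormal t : MulAut K₁) ^ n) x) = μ ^ n * ψ x := by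
    intro n
    induction n using Int.induction_on with
    | zero => intro x; simp
    | succ n ih =>
      intro x
      rw [zpow_add_one, MulAut.mul_apply, ih, hσ, zpow_add_one₀ hμ]
      ring
    | pred n ih =>
      intro x
      have h1 := hσ ((MulAut.conjNormal t : MulAut K₁)⁻¹ x)
      rw [MulAut.apply_inv_self] at h1
      rw [zpow_sub_one, MulAut.mul_apply, ih, h1, zpow_sub_one₀ hμ]
      field_simp
  let β : Γ → ℂ := fun g => if hg : pr f t g ∈ K₁ then ψ ⟨pr f t g, hg⟩ else 0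
  have hβ : ∀ (g : Γ) (hg : pr f t g ∈ K₁), β g = ψ ⟨pr f t g, hg⟩ := fun g hg => dif_pos hg
  have hβK : ∀ x : K₁, β x = ψ x := by
    intro x
    obtain ⟨-, hx2⟩ := pr_of_mem (t := t) hK x.2
    have h1 : pr f t (x : Γ) ∈ K₁ := by rw [hx2]; exact x.2
    rw [hβ _ h1]
    congr 1
    exact Subtype.ext hx2
  refine ⟨HH f t K₁ 1, ht f, β, μ, t, finiteIndex_HH hT ht1 hK 1 le_rfl, ?_⟩
  have hmemK : ∀ x ∈ HH f t K₁ 1, ht f x = 0 → x ∈ K₁ := by
    rintro x ⟨-, hx⟩ h0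
    unfold pr at hx
    rw [h0, neg_zero, zpow_zero, mul_one] at hx
    exact hx
  have hKmem : ∀ x ∈ K₁, x ∈ HH f t K₁ 1 := by
    intro x hx
    obtain ⟨h1, h2⟩ := pr_of_mem (t := t) hK hx
    exact ⟨by rw [h1]; exact dvd_zero _, by rw [h2]; exact hx⟩
  refine ⟨hμ, hμ1, fun x _ y _ => ht_mul f x y, ?_, ?_, ht1, ?_, ?_, ?_⟩
  · rintro x hx y hy
    have hxy := (HH f t K₁ 1).mul_mem hx hy
    rw [hβ _ hxy.2, hβ _ hx.2, hβ _ hy.2]
    have h1 : (⟨pr f t (x * y), hxy.2⟩ : K₁) = ⟨pr f t x, hx.2⟩ *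
        ((MulAut.conjNormal t : MulAut K₁) ^ (ht f x)) ⟨pr f t y, hy.2⟩ := by
      apply Subtype.ext
      rw [Subgroup.coe_mul, ← map_zpow, MulAut.conjNormal_apply]
      exact pr_mul f t x y
    rw [h1, hψ, hpow]
  · refine ⟨by simp, ?_⟩
    have : pr f t t = 1 := by
      unfold pr
      rw [ht1]
      simp
    rw [this]
    exact K₁.one_mem
  · have h1 : pr f t t = 1 := by
      unfold pr
      rw [ht1]
      simp
    have h2 : pr f t t ∈ K₁ := by rw [h1]; exact K₁.one_mem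
    rw [hβ _ h2]
    have h3 : (⟨pr f t t, h2⟩ : K₁) = 1 := Subtype.ext h1
    rw [h3, hψ1]
  · obtain ⟨n, S, -, hS⟩ := Group.fg_iff'.1 hfg
    let e := S.equivFin
    refine ⟨S.card, fun i => ψ (e.symm i), fun i => ?_, fun x hx h0 => ?_⟩
    · exact ⟨(e.symm i : K₁), hKmem _ (e.symm i : K₁).2,
        (pr_of_mem (t := t) hK (e.symm i : K₁).2).1, hβK _⟩
    · have hxK := hmemK x hx h0
      have h1 : ∀ y : K₁, y ∈ Subgroup.closure (S : Set K₁) →
          ∃ a : Fin S.card → ℤ, ψ y = ∑ i, a i * ψ (e.symm i) := by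
        intro y hy
        induction hy using Subgroup.closure_induction with
        | mem y hy =>
          refine ⟨Pi.single (e ⟨y, hy⟩) 1, ?_⟩
          rw [Finset.sum_eq_single (e ⟨y, hy⟩)]
          · simp
          · intro i _ hi
            simp [Pi.single_eq_of_ne hi]
          · intro hi
            exact absurd (Finset.mem_univ _) hi
        | one => exact ⟨0, by simp [hψ1]⟩
        | mul y z _ _ hy hz =>
          obtain ⟨a, ha⟩ := hy
          obtain ⟨b, hb⟩ := hz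
          refine ⟨a + b, ?_⟩
          rw [hψ, ha, hb, ← Finset.sum_add_distrib]
          refine Finset.sum_congr rfl fun i _ => ?_
          rw [Pi.add_apply]
          push_cast
          ring
        | inv y _ hy =>
          obtain ⟨a, ha⟩ := hy
          refine ⟨-a, ?_⟩
          rw [hψi, ha, ← Finset.sum_neg_distrib]
          refine Finset.sum_congr rfl fun i _ => ?_
          rw [Pi.neg_apply]
          push_cast
          ring
      obtain ⟨a, ha⟩ := h1 ⟨x, hxK⟩ (by rw [hS]; trivial)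
      exact ⟨a, by rw [← ha]; exact hβK ⟨x, hxK⟩⟩
  · obtain ⟨x, hx⟩ := hne
    exact ⟨x, hKmem x x.2, (pr_of_mem (t := t) hK x.2).1, by rw [hβK]; exact hx⟩

theorem dsc (h : P_EIG) : P_DSC := by
  intro Γ _ f K₁ hf hn hK hfi hfg φ₀ x₀ hx₀
  obtain ⟨t, ht'⟩ := hf (ofAdd 1)
  have ht1 : ht f t = 1 := by
    unfold ht
    rw [ht']
    rfl
  have hT := rep_of hfi
  rcases h K₁ hfg φ₀ x₀ hx₀ (MulAut.conjNormal t) with ⟨k, hk, φ, hφ, hinv⟩ |
    ⟨ψ, μ, hψ, hne, hμ, hμ1, hσ⟩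
  · exact Or.inl (caseA_of hT ht1 hK k hk φ hφ hinv)
  · right
    rcases lt_or_gt_of_ne hμ1 with h1 | h1
    · exact caseC_of hT ht1 hK hfg ψ μ hψ hne hμ h1 hσ
    · refine caseC_of (f := f⁻¹) (t := t⁻¹) ?_ ?_ ?_ hfg ψ μ⁻¹ hψ hne (inv_ne_zero hμ) ?_ ?_
      · obtain ⟨T, hT⟩ := hT
        exact ⟨T, fun g hg => hT g (by simpa using hg)⟩
      · have h2 : (f⁻¹) t⁻¹ = ofAdd 1 := by
          rw [MonoidHom.inv_apply, map_inv f, inv_inv, ht']
        show toAdd ((f⁻¹) t⁻¹) = 1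
        rw [h2]
        rfl
      · intro x hx
        have := hK hx
        rw [MonoidHom.mem_ker] at this ⊢
        rw [MonoidHom.inv_apply, this, inv_one]
      · rw [norm_inv]
        exact inv_lt_one_of_one_lt₀ h1
      · intro x
        have h2 := hσ ((MulAut.conjNormal t : MulAut K₁)⁻¹ x)
        rw [MulAut.apply_inv_self] at h2
        rw [map_inv, h2]
        field_simp

end

end Pool.Agent.W2helper73.FD
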